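import Mathlib

/-!
# Edge colourings of regular multigraphs that two vertices make bipartite

Main result (`result`): an `r`-regular loopless multigraph in which every set of an odd number of
vertices is left by at least `r` edges, and which becomes bipartite after deleting two vertices,
is of Class 1. For `r = 5` the hypothesis holds for all `5`-regular `5`-edge-connected graphs
(`five`).

Proof idea. Counting gives a partition of the vertices into equal halves `A`, `B` with `u ∈ A`,
`v ∈ B`, all inner edges of `A` at `u` and all inner edges of `B` at `v`, `i` of each kind (or the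
graph is bipartite). A degree-constrained subgraph theorem (`factor`) gives an `i`-regular spanning
subgraph `Q` that contains all inner edges and no other edge at `u` or `v`; it is bipartite after
moving `u` and `v` to the other side, and the rest is bipartite as well, so both parts can be
coloured by König's theorem (`konig`).
-/

open Finset

namespace Pool.Agent.Results.MP_78ca69_co.BipartiteAfterTwo


/-- König: a bipartite multigraph (edges `F`, left ends `p`, right ends `q`) all of whose degrees
are `k` is `k`-edge-colourable. -/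
theorem konig {V E : Type} [DecidableEq V] [DecidableEq E] (p q : E → V) (L R : Finset V) (k : ℕ) :
    ∀ F : Finset E, (∀ e ∈ F, p e ∈ L) → (∀ e ∈ F, q e ∈ R) →
      (∀ x ∈ L, (F.filter (fun e => p e = x)).card = k) →
      (∀ y ∈ R, (F.filter (fun e => q e = y)).card = k) →
      ∃ c : E → ℕ, (∀ e ∈ F, c e < k) ∧
        ∀ e ∈ F, ∀ f ∈ F, e ≠ f → (p e = p f ∨ q e = q f) → c e ≠ c f := by
  induction k with
  | zero =>
    intro F hp hq hdp hdq
    have hF : F = ∅ := by
      by_contra h
      obtain ⟨e, he⟩ := Finset.nonempty_iff_ne_empty.mpr h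
      have h1 := hdp (p e) (hp e he)
      rw [Finset.card_eq_zero] at h1
      have : e ∈ F.filter (fun e' => p e' = p e) := by simp [he]
      rw [h1] at this
      simp at this
    subst hF
    exact ⟨fun _ => 0, by simp, by simp⟩
  | succ k ih =>
    intro F hp hq hdp hdq
    have hcardL : F.card = L.card * (k + 1) := by
      rw [Finset.card_eq_sum_card_fiberwise (f := p) (t := L) (fun e he => hp e he)]
      rw [Finset.sum_congr rfl (fun x hx => hdp x hx)]
      simp
    have hcardR : F.card = R.card * (k + 1) := by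
      rw [Finset.card_eq_sum_card_fiberwise (f := q) (t := R) (fun e he => hq e he)]
      rw [Finset.sum_congr rfl (fun x hx => hdq x hx)]
      simp
    have hLR : L.card = R.card := by
      have : L.card * (k + 1) = R.card * (k + 1) := by rw [← hcardL, ← hcardR]
      exact Nat.eq_of_mul_eq_mul_right (Nat.succ_pos k) this
    -- Hall
    have hall : ∀ s : Finset {x // x ∈ L},
        s.card ≤ (s.biUnion (fun x => (F.filter (fun e => p e = x.1)).image q)).card := by
      intro s
      set N := s.biUnion (fun x => (F.filter (fun e => p e = x.1)).image q) with hN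
      have hNR : N ⊆ R := by
        intro y hy
        rw [hN, Finset.mem_biUnion] at hy
        obtain ⟨x, _, hy⟩ := hy
        rw [Finset.mem_image] at hy
        obtain ⟨e, he, rfl⟩ := hy
        exact hq e (Finset.mem_filter.mp he).1
      have h1 : (F.filter (fun e => p e ∈ s.image (fun x => x.1))).card = s.card * (k + 1) := by
        have hmt : ((F.filter (fun e => p e ∈ s.image (fun x => x.1)) : Finset E) : Set E).MapsTo p
            (s.image (fun x => x.1) : Finset V) := by
          intro e he
          exact (Finset.mem_filter.mp (Finset.mem_coe.mp he)).2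
        rw [Finset.card_eq_sum_card_fiberwise hmt]
        rw [Finset.sum_congr rfl (g := fun _ => k + 1)]
        · rw [Finset.sum_const, Finset.card_image_of_injective _ Subtype.val_injective]
          simp
        · intro x hx
          rw [Finset.filter_filter]
          rw [Finset.mem_image] at hx
          obtain ⟨x', hx', rfl⟩ := hx
          rw [← hdp x'.1 x'.2]
          congr 1
          ext e
          simp only [Finset.mem_filter, Finset.mem_image]
          constructor
          · rintro ⟨h1, _, h2⟩; exact ⟨h1, h2⟩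
          · rintro ⟨h1, h2⟩; exact ⟨h1, ⟨x', hx', h2.symm⟩, h2⟩
      have h2 : (F.filter (fun e => q e ∈ N)).card = N.card * (k + 1) := by
        have hmt : ((F.filter (fun e => q e ∈ N) : Finset E) : Set E).MapsTo q (N : Finset V) := by
          intro e he
          exact (Finset.mem_filter.mp (Finset.mem_coe.mp he)).2
        rw [Finset.card_eq_sum_card_fiberwise hmt]
        rw [Finset.sum_congr rfl (g := fun _ => k + 1)]
        · simp
        · intro y hy
          rw [Finset.filter_filter, ← hdq y (hNR hy)]
          congr 1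
          ext e
          simp only [Finset.mem_filter]
          constructor
          · rintro ⟨h1, _, h2⟩; exact ⟨h1, h2⟩
          · rintro ⟨h1, h2⟩; exact ⟨h1, by rw [h2]; exact hy, h2⟩
      have h3 : F.filter (fun e => p e ∈ s.image (fun x => x.1)) ⊆ F.filter (fun e => q e ∈ N) := by
        intro e he
        rw [Finset.mem_filter] at he ⊢
        refine ⟨he.1, ?_⟩
        obtain ⟨x, hx, hxe⟩ := Finset.mem_image.mp he.2
        rw [hN, Finset.mem_biUnion]
        refine ⟨x, hx, Finset.mem_image.mpr ⟨e, ?_, rfl⟩⟩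
        rw [Finset.mem_filter]
        exact ⟨he.1, hxe.symm⟩
      have h4 := Finset.card_le_card h3
      rw [h1, h2] at h4
      exact Nat.le_of_mul_le_mul_right h4 (Nat.succ_pos k)
    obtain ⟨g, hginj, hg⟩ := (Finset.all_card_le_biUnion_card_iff_exists_injective _).mp hall
    have hm : ∀ x : {x // x ∈ L}, ∃ e, e ∈ F ∧ p e = x.1 ∧ q e = g x := by
      intro x
      obtain ⟨e, he, hqe⟩ := Finset.mem_image.mp (hg x)
      rw [Finset.mem_filter] at he
      exact ⟨e, he.1, he.2, hqe⟩
    choose m hmF hmp hmq using hm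
    have hminj : Function.Injective m := by
      intro x y hxy
      apply Subtype.ext
      rw [← hmp x, ← hmp y, hxy]
    set M : Finset E := Finset.univ.image m with hM
    have hMF : M ⊆ F := by
      intro e he
      rw [hM, Finset.mem_image] at he
      obtain ⟨x, _, rfl⟩ := he
      exact hmF x
    have hMp : ∀ x ∈ L, (M.filter (fun e => p e = x)).card = 1 := by
      intro x hx
      rw [Finset.card_eq_one]
      refine ⟨m ⟨x, hx⟩, ?_⟩
      ext e
      simp only [Finset.mem_filter, Finset.mem_singleton]
      constructor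
      · rintro ⟨he, hpe⟩
        rw [hM, Finset.mem_image] at he
        obtain ⟨x', _, rfl⟩ := he
        congr 1
        apply Subtype.ext
        rw [← hmp x', hpe]
      · rintro rfl
        exact ⟨Finset.mem_image.mpr ⟨_, Finset.mem_univ _, rfl⟩, hmp _⟩
    have himg : Finset.univ.image g = R := by
      apply Finset.eq_of_subset_of_card_le
      · intro y hy
        rw [Finset.mem_image] at hy
        obtain ⟨x, _, rfl⟩ := hy
        rw [← hmq x]
        exact hq _ (hmF x)
      · rw [Finset.card_image_of_injective _ hginj, Finset.card_univ, Fintype.card_coe, hLR]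
    have hMq : ∀ y ∈ R, (M.filter (fun e => q e = y)).card = 1 := by
      intro y hy
      rw [← himg, Finset.mem_image] at hy
      obtain ⟨x, _, hxy⟩ := hy
      rw [Finset.card_eq_one]
      refine ⟨m x, ?_⟩
      ext e
      simp only [Finset.mem_filter, Finset.mem_singleton]
      constructor
      · rintro ⟨he, hqe⟩
        rw [hM, Finset.mem_image] at he
        obtain ⟨x', _, rfl⟩ := he
        congr 1
        apply hginj
        rw [← hmq x', hqe, hxy]
      · rintro rfl
        exact ⟨Finset.mem_image.mpr ⟨_, Finset.mem_univ _, rfl⟩, by rw [hmq, hxy]⟩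
    obtain ⟨c, hc1, hc2⟩ := ih (F \ M) (fun e he => hp e (Finset.mem_sdiff.mp he).1)
      (fun e he => hq e (Finset.mem_sdiff.mp he).1)
      (by
        intro x hx
        have h1 : (F \ M).filter (fun e => p e = x) =
            (F.filter (fun e => p e = x)) \ (M.filter (fun e => p e = x)) := by
          ext e; simp only [Finset.mem_filter, Finset.mem_sdiff]; tauto
        rw [h1, Finset.card_sdiff_of_subset (Finset.filter_subset_filter _ hMF), hdp x hx, hMp x hx]
        rfl)
      (by
        intro x hx
        have h1 : (F \ M).filter (fun e => q e = x) =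
            (F.filter (fun e => q e = x)) \ (M.filter (fun e => q e = x)) := by
          ext e; simp only [Finset.mem_filter, Finset.mem_sdiff]; tauto
        rw [h1, Finset.card_sdiff_of_subset (Finset.filter_subset_filter _ hMF), hdq x hx, hMq x hx]
        rfl)
    refine ⟨fun e => if e ∈ M then k else c e, ?_, ?_⟩
    · intro e he
      by_cases h : e ∈ M
      · simp [h]
      · have := hc1 e (Finset.mem_sdiff.mpr ⟨he, h⟩)
        simp only [h, if_false]; omega
    · intro e he f hf hef hpq
      by_cases h : e ∈ M <;> by_cases h' : f ∈ M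
      · exfalso
        rcases hpq with hpq | hpq
        · have h1 := hMp (p f) (hp f hf)
          rw [Finset.card_eq_one] at h1
          obtain ⟨z, hz⟩ := h1
          have ha : e ∈ M.filter (fun e => p e = p f) := Finset.mem_filter.mpr ⟨h, hpq⟩
          have hb : f ∈ M.filter (fun e => p e = p f) := Finset.mem_filter.mpr ⟨h', rfl⟩
          rw [hz, Finset.mem_singleton] at ha hb
          exact hef (ha.trans hb.symm)
        · have h1 := hMq (q f) (hq f hf)
          rw [Finset.card_eq_one] at h1
          obtain ⟨z, hz⟩ := h1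
          have ha : e ∈ M.filter (fun e => q e = q f) := Finset.mem_filter.mpr ⟨h, hpq⟩
          have hb : f ∈ M.filter (fun e => q e = q f) := Finset.mem_filter.mpr ⟨h', rfl⟩
          rw [hz, Finset.mem_singleton] at ha hb
          exact hef (ha.trans hb.symm)
      · have := hc1 f (Finset.mem_sdiff.mpr ⟨hf, h'⟩)
        simp only [h, h', if_true, if_false]; omega
      · have := hc1 e (Finset.mem_sdiff.mpr ⟨he, h⟩)
        simp only [h, h', if_true, if_false]; omega
      · simp only [h, h', if_false]
        exact hc2 e (Finset.mem_sdiff.mpr ⟨he, h⟩) f (Finset.mem_sdiff.mpr ⟨hf, h'⟩) hef hpq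



/-- Degree-constrained subgraphs of a bipartite multigraph (Ore-Ryser). -/
theorem factor {V E : Type} [DecidableEq V] [DecidableEq E] (p q : E → V) (L R : Finset V)
    (dp dq : V → ℕ) (F : Finset E) (_hp : ∀ e ∈ F, p e ∈ L) (hq : ∀ e ∈ F, q e ∈ R)
    (hsum : ∑ x ∈ L, dp x = ∑ y ∈ R, dq y)
    (hcond : ∀ X ⊆ L, ∀ Y ⊆ R, ∑ x ∈ X, dp x ≤
      (F.filter (fun e => p e ∈ X ∧ q e ∉ Y)).card + ∑ y ∈ Y, dq y) :
    ∃ F' ⊆ F, (∀ x ∈ L, (F'.filter (fun e => p e = x)).card = dp x) ∧
      (∀ y ∈ R, (F'.filter (fun e => q e = y)).card = dq y) := by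
  classical
  -- left items: copies of left vertices, and edges
  let ι := (Σ x : {x // x ∈ L}, Fin (dp x.1)) ⊕ {e // e ∈ F}
  let α := E ⊕ (Σ _ : V, ℕ)
  let t : ι → Finset α := fun i => match i with
    | Sum.inl x => (F.filter (fun e => p e = x.1.1)).image Sum.inl
    | Sum.inr e => insert (Sum.inl e.1)
        ((Finset.range (dq (q e.1))).image (fun j => Sum.inr ⟨q e.1, j⟩))
  let T : Finset α := (F.image Sum.inl) ∪
    ((R.sigma (fun y => Finset.range (dq y))).image Sum.inr)
  have hcardT : T.card = F.card + ∑ y ∈ R, dq y := by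
    rw [Finset.card_union_of_disjoint]
    · rw [Finset.card_image_of_injective _ Sum.inl_injective,
        Finset.card_image_of_injective _ Sum.inr_injective, Finset.card_sigma]
      simp
    · rw [Finset.disjoint_left]
      intro a ha hb
      rw [Finset.mem_image] at ha hb
      obtain ⟨e, _, rfl⟩ := ha
      obtain ⟨y, _, hy⟩ := hb
      cases hy
  have hcardι : Fintype.card ι = F.card + ∑ x ∈ L, dp x := by
    rw [Fintype.card_sum, Fintype.card_sigma, Fintype.card_coe, add_comm]
    congr 1
    simp only [Fintype.card_fin]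
    exact Finset.sum_coe_sort L dp
  have htT : ∀ i, t i ⊆ T := by
    intro i
    rcases i with x | e
    · intro a ha
      simp only [t, Finset.mem_image, Finset.mem_filter] at ha
      obtain ⟨e, he, rfl⟩ := ha
      exact Finset.mem_union_left _ (Finset.mem_image.mpr ⟨e, he.1, rfl⟩)
    · intro a ha
      simp only [t, Finset.mem_insert, Finset.mem_image, Finset.mem_range] at ha
      rcases ha with rfl | ⟨j, hj, rfl⟩
      · exact Finset.mem_union_left _ (Finset.mem_image.mpr ⟨e.1, e.2, rfl⟩)
      · refine Finset.mem_union_right _ (Finset.mem_image.mpr ⟨⟨q e.1, j⟩, ?_, rfl⟩)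
        rw [Finset.mem_sigma]
        exact ⟨hq e.1 e.2, Finset.mem_range.mpr hj⟩
  have hall : ∀ W : Finset ι, W.card ≤ (W.biUnion t).card := by
    intro W
    set X : Finset V := L.filter (fun x => ∃ i ∈ W, ∃ z : (Σ x : {x // x ∈ L}, Fin (dp x.1)),
      i = Sum.inl z ∧ z.1.1 = x) with hX
    set WE : Finset E := F.filter (fun e => ∃ i ∈ W, ∃ z : {e // e ∈ F}, i = Sum.inr z ∧ z.1 = e)
      with hWE
    set Y : Finset V := WE.image q with hY
    have hYR : Y ⊆ R := by
      intro y hy
      rw [hY, Finset.mem_image] at hy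
      obtain ⟨e, he, rfl⟩ := hy
      exact hq e (Finset.mem_filter.mp he).1
    have h1 : W.card ≤ ∑ x ∈ X, dp x + WE.card := by
      have hsub : W ⊆ ((Finset.univ.filter
          (fun z : (Σ x : {x // x ∈ L}, Fin (dp x.1)) => z.1.1 ∈ X)).image Sum.inl) ∪
          ((Finset.univ.filter (fun z : {e // e ∈ F} => z.1 ∈ WE)).image Sum.inr) := by
        intro i hi
        rcases i with x | e
        · refine Finset.mem_union_left _ (Finset.mem_image.mpr ⟨x, ?_, rfl⟩)
          simp only [Finset.mem_filter, Finset.mem_univ, true_and, hX]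
          exact ⟨x.1.2, _, hi, x, rfl, rfl⟩
        · refine Finset.mem_union_right _ (Finset.mem_image.mpr ⟨e, ?_, rfl⟩)
          simp only [Finset.mem_filter, Finset.mem_univ, true_and, hWE]
          exact ⟨e.2, _, hi, e, rfl, rfl⟩
      refine (Finset.card_le_card hsub).trans ((Finset.card_union_le _ _).trans ?_)
      apply Nat.add_le_add
      · refine Finset.card_image_le.trans ?_
        have : (Finset.univ.filter
          (fun z : (Σ x : {x // x ∈ L}, Fin (dp x.1)) => z.1.1 ∈ X)) =
          (Finset.univ.filter (fun x : {x // x ∈ L} => x.1 ∈ X)).sigma (fun _ => Finset.univ) := by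
          ext z; simp
        rw [this, Finset.card_sigma]
        simp only [Finset.card_univ, Fintype.card_fin]
        rw [← Finset.sum_image (s := Finset.univ.filter (fun x : {x // x ∈ L} => x.1 ∈ X))
          (g := fun x => x.1) (f := fun x => dp x) (by intro a _ b _ h; exact Subtype.ext h)]
        apply Finset.sum_le_sum_of_subset
        intro x hx
        rw [Finset.mem_image] at hx
        obtain ⟨y, hy, rfl⟩ := hx
        exact (Finset.mem_filter.mp hy).2
      · refine Finset.card_image_le.trans ?_
        rw [← Finset.card_image_of_injective _ (Subtype.val_injective (p := fun e => e ∈ F))]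
        apply Finset.card_le_card
        intro x hx
        rw [Finset.mem_image] at hx
        obtain ⟨y, hy, rfl⟩ := hx
        exact (Finset.mem_filter.mp hy).2
    have h2 : (F.filter (fun e => p e ∈ X) ∪ WE).card + ∑ y ∈ Y, dq y ≤ (W.biUnion t).card := by
      have hsub : ((F.filter (fun e => p e ∈ X) ∪ WE).image Sum.inl) ∪
          ((Y.sigma (fun y => Finset.range (dq y))).image Sum.inr) ⊆ W.biUnion t := by
        intro a ha
        rw [Finset.mem_union, Finset.mem_image, Finset.mem_image] at ha
        rw [Finset.mem_biUnion]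
        rcases ha with ⟨e, he, rfl⟩ | ⟨z, hz, rfl⟩
        · rw [Finset.mem_union, Finset.mem_filter] at he
          rcases he with ⟨heF, hpe⟩ | he
          · obtain ⟨_, i, hi, z, rfl, hz⟩ := Finset.mem_filter.mp hpe
            refine ⟨_, hi, ?_⟩
            simp only [t, Finset.mem_image, Finset.mem_filter]
            exact ⟨e, ⟨heF, hz.symm⟩, rfl⟩
          · obtain ⟨_, i, hi, z, rfl, hz⟩ := Finset.mem_filter.mp he
            refine ⟨_, hi, ?_⟩
            simp only [t, Finset.mem_insert]
            exact Or.inl (by rw [hz])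
        · rw [Finset.mem_sigma] at hz
          obtain ⟨hz1, hz2⟩ := hz
          rw [hY, Finset.mem_image] at hz1
          obtain ⟨e, he, hqe⟩ := hz1
          obtain ⟨_, i, hi, z', rfl, hz'⟩ := Finset.mem_filter.mp he
          refine ⟨_, hi, ?_⟩
          simp only [t, Finset.mem_insert, Finset.mem_image]
          right
          refine ⟨z.2, ?_, ?_⟩
          · rw [hz', hqe]; exact hz2
          · rw [hz', hqe]
      refine le_trans (le_of_eq ?_) (Finset.card_le_card hsub)
      have hdis : Disjoint ((F.filter (fun e => p e ∈ X) ∪ WE).image (Sum.inl : E → α))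
          ((Y.sigma (fun y => Finset.range (dq y))).image Sum.inr) := by
        rw [Finset.disjoint_left]
        intro a ha hb
        rw [Finset.mem_image] at ha hb
        obtain ⟨e, _, rfl⟩ := ha
        obtain ⟨y, _, hy⟩ := hb
        cases hy
      rw [Finset.card_union_of_disjoint hdis, Finset.card_image_of_injective _ Sum.inl_injective,
        Finset.card_image_of_injective _ Sum.inr_injective, Finset.card_sigma]
      simp
    have h3 := hcond X (Finset.filter_subset _ _) Y hYR
    have h4 : (F.filter (fun e => p e ∈ X ∧ q e ∉ Y)).card + WE.card ≤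
        (F.filter (fun e => p e ∈ X) ∪ WE).card := by
      rw [← Finset.card_union_of_disjoint]
      · apply Finset.card_le_card
        intro e he
        rw [Finset.mem_union, Finset.mem_filter] at he
        rw [Finset.mem_union, Finset.mem_filter]
        rcases he with he | he
        · exact Or.inl ⟨he.1, he.2.1⟩
        · exact Or.inr he
      · rw [Finset.disjoint_left]
        intro e he hb
        exact (Finset.mem_filter.mp he).2.2 (Finset.mem_image.mpr ⟨e, hb, rfl⟩)
    omega
  obtain ⟨f, hinj, hf⟩ := (Finset.all_card_le_biUnion_card_iff_exists_injective t).mp hall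
  have himg : Finset.univ.image f = T := by
    apply Finset.eq_of_subset_of_card_le
    · intro a ha
      rw [Finset.mem_image] at ha
      obtain ⟨i, _, rfl⟩ := ha
      exact htT i (hf i)
    · rw [Finset.card_image_of_injective _ hinj, Finset.card_univ, hcardι, hcardT, hsum]
  refine ⟨F.filter (fun e => ∀ he : e ∈ F, f (Sum.inr ⟨e, he⟩) ≠ Sum.inl e),
    Finset.filter_subset _ _, ?_, ?_⟩
  · -- left degrees
    intro x hx
    have : ((F.filter (fun e => ∀ he : e ∈ F, f (Sum.inr ⟨e, he⟩) ≠ Sum.inl e)).filter
        (fun e => p e = x)).image (Sum.inl : E → α) =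
        (Finset.univ : Finset (Fin (dp x))).image
          (fun j => f (Sum.inl ⟨⟨x, hx⟩, j⟩)) := by
      ext a
      simp only [Finset.mem_image, Finset.mem_filter, Finset.mem_univ, true_and]
      constructor
      · rintro ⟨e, ⟨⟨heF, hne⟩, hpe⟩, rfl⟩
        have : (Sum.inl e : α) ∈ T := Finset.mem_union_left _ (Finset.mem_image.mpr ⟨e, heF, rfl⟩)
        rw [← himg, Finset.mem_image] at this
        obtain ⟨i, _, hi⟩ := this
        rcases i with z | z
        · have h5 := hf (Sum.inl z)
          rw [hi] at h5
          simp only [t, Finset.mem_image, Finset.mem_filter] at h5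
          obtain ⟨e', he', hee⟩ := h5
          have : e' = e := Sum.inl_injective hee
          subst this
          obtain ⟨⟨x', hx'⟩, j⟩ := z
          have hxx : x' = x := he'.2.symm.trans hpe
          subst hxx
          exact ⟨j, hi⟩
        · exfalso
          have h5 := hf (Sum.inr z)
          rw [hi] at h5
          simp only [t, Finset.mem_insert, Finset.mem_image] at h5
          rcases h5 with h5 | ⟨_, _, h5⟩
          · have : e = z.1 := Sum.inl_injective h5
            subst this
            exact hne z.2 hi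
          · cases h5
      · rintro ⟨j, rfl⟩
        have h5 := hf (Sum.inl ⟨⟨x, hx⟩, j⟩)
        simp only [t, Finset.mem_image, Finset.mem_filter] at h5
        obtain ⟨e, ⟨heF, hpe⟩, hee⟩ := h5
        refine ⟨e, ⟨⟨heF, ?_⟩, hpe⟩, hee⟩
        intro he h6
        rw [hee] at h6
        have := hinj h6
        cases this
    have h7 := congrArg Finset.card this
    rw [Finset.card_image_of_injective _ Sum.inl_injective, Finset.card_image_of_injective] at h7
    · rw [h7]; simp
    · intro i j hij
      have := Sum.inl_injective (hinj hij)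
      simpa using this
  · -- right degrees
    intro y hy
    have : (((F.filter (fun e => ∀ he : e ∈ F, f (Sum.inr ⟨e, he⟩) ≠ Sum.inl e)).filter
        (fun e => q e = y)).attach.image
        (fun e => f (Sum.inr ⟨e.1, (Finset.mem_filter.mp (Finset.mem_filter.mp e.2).1).1⟩))) =
        (Finset.range (dq y)).image (fun j => (Sum.inr ⟨y, j⟩ : α)) := by
      ext a
      simp only [Finset.mem_image, Finset.mem_attach, true_and, Finset.mem_range]
      constructor
      · rintro ⟨⟨e, he⟩, rfl⟩
        rw [Finset.mem_filter, Finset.mem_filter] at he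
        have h5 := hf (Sum.inr ⟨e, he.1.1⟩)
        simp only [t, Finset.mem_insert, Finset.mem_image, Finset.mem_range] at h5
        rcases h5 with h5 | ⟨j, hj, h5⟩
        · exact absurd h5 (he.1.2 he.1.1)
        · refine ⟨j, by rw [← he.2]; exact hj, ?_⟩
          rw [← h5, he.2]
      · rintro ⟨j, hj, rfl⟩
        have : (Sum.inr ⟨y, j⟩ : α) ∈ T := by
          refine Finset.mem_union_right _ (Finset.mem_image.mpr ⟨⟨y, j⟩, ?_, rfl⟩)
          rw [Finset.mem_sigma]
          exact ⟨hy, Finset.mem_range.mpr hj⟩
        rw [← himg, Finset.mem_image] at this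
        obtain ⟨i, _, hi⟩ := this
        rcases i with z | z
        · exfalso
          have h5 := hf (Sum.inl z)
          rw [hi] at h5
          simp only [t, Finset.mem_image, Finset.mem_filter] at h5
          obtain ⟨_, _, h5⟩ := h5
          cases h5
        · have h5 := hf (Sum.inr z)
          rw [hi] at h5
          simp only [t, Finset.mem_insert, Finset.mem_image, Finset.mem_range] at h5
          rcases h5 with h5 | ⟨j', _, h5⟩
          · cases h5
          · have hqy : q z.1 = y := by
              have := Sum.inr_injective h5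
              exact congrArg Sigma.fst this
            refine ⟨⟨z.1, ?_⟩, ?_⟩
            · rw [Finset.mem_filter, Finset.mem_filter]
              refine ⟨⟨z.2, ?_⟩, hqy⟩
              intro he h6
              rw [h6] at hi
              cases hi
            · exact hi
    have h7 := congrArg Finset.card this
    rw [Finset.card_image_of_injective, Finset.card_attach] at h7
    · rw [h7, Finset.card_image_of_injective]
      · simp
      · intro i j hij
        have := Sum.inr_injective hij
        simpa using this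
    · intro i j hij
      have := Sum.inr_injective (hinj hij)
      apply Subtype.ext
      simpa using this



/-- A loopless multigraph with vertex set `V` and edge set `E`. -/
structure MGraph (V E : Type) where
  fst : E → V
  snd : E → V
  loopless : ∀ e, fst e ≠ snd e

namespace MGraph
variable {V E : Type} [Fintype V] [DecidableEq V] [Fintype E] [DecidableEq E]

def Inc (G : MGraph V E) (v : V) (e : E) : Prop := G.fst e = v ∨ G.snd e = v

instance (G : MGraph V E) (v : V) (e : E) : Decidable (G.Inc v e) := by
  unfold Inc; infer_instance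

def cut (G : MGraph V E) (S : Finset V) : Finset E :=
  univ.filter (fun e => ¬ (G.fst e ∈ S ↔ G.snd e ∈ S))

def Regular (G : MGraph V E) (r : ℕ) : Prop :=
  ∀ v, (univ.filter (fun e => G.Inc v e)).card = r

def Class1 (G : MGraph V E) (r : ℕ) : Prop :=
  ∃ c : E → Fin r, ∀ e f, e ≠ f → (∃ v, G.Inc v e ∧ G.Inc v f) → c e ≠ c f

end MGraph

open MGraph
variable {V E : Type} [Fintype V] [DecidableEq V] [Fintype E] [DecidableEq E]

/-- the end of `e` in `A` (for edges with exactly one end in `A`) -/
def pe (G : MGraph V E) (A : Finset V) (e : E) : V := if G.fst e ∈ A then G.fst e else G.snd e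
def qe (G : MGraph V E) (A : Finset V) (e : E) : V := if G.fst e ∈ A then G.snd e else G.fst e

omit [Fintype V] [Fintype E] [DecidableEq E] in
theorem pe_mem (G : MGraph V E) (A : Finset V) (e : E) (h : ¬ (G.fst e ∈ A ↔ G.snd e ∈ A)) :
    pe G A e ∈ A := by
  unfold pe
  by_cases h1 : G.fst e ∈ A
  · simp [h1]
  · by_cases h2 : G.snd e ∈ A
    · simp [h1, h2]
    · exact absurd (iff_of_false h1 h2) h

omit [Fintype V] [Fintype E] [DecidableEq E] in
theorem qe_mem (G : MGraph V E) (A : Finset V) (e : E) (h : ¬ (G.fst e ∈ A ↔ G.snd e ∈ A)) :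
    qe G A e ∉ A := by
  unfold qe
  by_cases h1 : G.fst e ∈ A
  · simp only [h1, if_true]
    intro h2
    exact h (iff_of_true h1 h2)
  · simp [h1]

omit [Fintype V] [Fintype E] [DecidableEq E] in
theorem pe_eq (G : MGraph V E) (A : Finset V) (e : E) (h : ¬ (G.fst e ∈ A ↔ G.snd e ∈ A))
    (x : V) (hx : x ∈ A) : pe G A e = x ↔ G.Inc x e := by
  unfold pe Inc
  by_cases h1 : G.fst e ∈ A
  · have h2 : G.snd e ∉ A := fun h2 => h (iff_of_true h1 h2)
    simp only [h1, if_true]
    constructor
    · exact Or.inl
    · rintro (h3 | h3)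
      · exact h3
      · exact absurd (h3 ▸ hx) h2
  · simp only [h1, if_false]
    constructor
    · exact Or.inr
    · rintro (h3 | h3)
      · exact absurd (h3 ▸ hx) h1
      · exact h3

omit [Fintype V] [Fintype E] [DecidableEq E] in
theorem qe_eq (G : MGraph V E) (A : Finset V) (e : E) (h : ¬ (G.fst e ∈ A ↔ G.snd e ∈ A))
    (x : V) (hx : x ∉ A) : qe G A e = x ↔ G.Inc x e := by
  unfold qe Inc
  by_cases h1 : G.fst e ∈ A
  · simp only [h1, if_true]
    constructor
    · exact Or.inr
    · rintro (h3 | h3)
      · exact absurd (h3 ▸ h1) hx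
      · exact h3
  · have h2 : G.snd e ∈ A := by
      by_contra h2; exact h (iff_of_false h1 h2)
    simp only [h1, if_false]
    constructor
    · exact Or.inl
    · rintro (h3 | h3)
      · exact h3
      · exact absurd (h3 ▸ h2) hx

omit [Fintype E] in
theorem colour_cross (G : MGraph V E) (A : Finset V) (k : ℕ) (F : Finset E)
    (hcross : ∀ e ∈ F, ¬ (G.fst e ∈ A ↔ G.snd e ∈ A))
    (hdeg : ∀ v, (F.filter (fun e => G.Inc v e)).card = k) :
    ∃ c : E → ℕ, (∀ e ∈ F, c e < k) ∧
      ∀ e ∈ F, ∀ f ∈ F, e ≠ f → (∃ v, G.Inc v e ∧ G.Inc v f) → c e ≠ c f := by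
  obtain ⟨c, h1, h2⟩ := konig (pe G A) (qe G A) A Aᶜ k F
    (fun e he => pe_mem G A e (hcross e he))
    (fun e he => Finset.mem_compl.mpr (qe_mem G A e (hcross e he)))
    (by
      intro x hx
      rw [← hdeg x]
      congr 1
      apply Finset.filter_congr
      intro e he
      exact pe_eq G A e (hcross e he) x hx)
    (by
      intro x hx
      rw [← hdeg x]
      congr 1
      apply Finset.filter_congr
      intro e he
      exact qe_eq G A e (hcross e he) x (Finset.mem_compl.mp hx))
  refine ⟨c, h1, ?_⟩
  rintro e he f hf hef ⟨v, hv1, hv2⟩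
  apply h2 e he f hf hef
  by_cases hv : v ∈ A
  · left
    rw [(pe_eq G A e (hcross e he) v hv).mpr hv1, (pe_eq G A f (hcross f hf) v hv).mpr hv2]
  · right
    rw [(qe_eq G A e (hcross e he) v hv).mpr hv1, (qe_eq G A f (hcross f hf) v hv).mpr hv2]

omit [Fintype V] [Fintype E] [DecidableEq E] in
theorem incsum (G : MGraph V E) (F : Finset E) (D : Finset V) :
    ∑ x ∈ D, (F.filter (fun e => G.Inc x e)).card =
      ∑ e ∈ F, ((if G.fst e ∈ D then 1 else 0) + (if G.snd e ∈ D then 1 else 0)) := by
  have : ∀ x, (F.filter (fun e => G.Inc x e)).card =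
      ∑ e ∈ F, ((if G.fst e = x then 1 else 0) + (if G.snd e = x then 1 else 0)) := by
    intro x
    rw [Finset.card_filter]
    apply Finset.sum_congr rfl
    intro e _
    unfold Inc
    have := G.loopless e
    by_cases h1 : G.fst e = x <;> by_cases h2 : G.snd e = x
    · exact absurd (h1.trans h2.symm) this
    · simp [h1, h2]
    · simp [h1, h2]
    · simp [h1, h2]
  simp only [this]
  rw [Finset.sum_comm]
  apply Finset.sum_congr rfl
  intro e _
  rw [Finset.sum_add_distrib]
  simp

/-- combining two colourings -/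
theorem class1_of_parts (G : MGraph V E) (r i : ℕ) (hi : i ≤ r) (Q : Finset E) (A A' : Finset V)
    (hreg : G.Regular r)
    (hQ : ∀ e ∈ Q, ¬ (G.fst e ∈ A' ↔ G.snd e ∈ A')) (hK : ∀ e ∉ Q, ¬ (G.fst e ∈ A ↔ G.snd e ∈ A))
    (hdeg : ∀ v, (Q.filter (fun e => G.Inc v e)).card = i) : G.Class1 r := by
  obtain ⟨c, hc1, hc2⟩ := colour_cross G A' i Q hQ hdeg
  obtain ⟨d, hd1, hd2⟩ := colour_cross G A (r - i) Qᶜ (fun e he => hK e (Finset.mem_compl.mp he))
    (by
      intro v
      have h1 : Qᶜ.filter (fun e => G.Inc v e) =
          (univ.filter (fun e => G.Inc v e)) \ (Q.filter (fun e => G.Inc v e)) := by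
        ext e; simp only [Finset.mem_filter, Finset.mem_sdiff, Finset.mem_compl, Finset.mem_univ]
        tauto
      rw [h1, Finset.card_sdiff_of_subset (Finset.filter_subset_filter _ (Finset.subset_univ _)),
        hreg v, hdeg v])
  refine ⟨fun e => if h : e ∈ Q then ⟨c e, lt_of_lt_of_le (hc1 e h) hi⟩ else
    ⟨i + d e, by have := hd1 e (Finset.mem_compl.mpr h); omega⟩, ?_⟩
  intro e f hef hv
  by_cases h : e ∈ Q <;> by_cases h' : f ∈ Q
  · simp only [h, h', dif_pos, ne_eq, Fin.mk.injEq]
    exact hc2 e h f h' hef hv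
  · have := hc1 e h
    simp only [h, h', dif_pos, ne_eq]
    intro h3
    have := congrArg Fin.val h3
    simp at this
    omega
  · have := hc1 f h'
    simp only [h, h', dif_pos, ne_eq]
    intro h3
    have := congrArg Fin.val h3
    simp at this
    omega
  · simp only [h, h', ne_eq]
    intro h3
    have := congrArg Fin.val h3
    simp at this
    exact hd2 e (Finset.mem_compl.mpr h) f (Finset.mem_compl.mpr h') hef hv this



section core

def T1 (a b : Fin 6) : ℤ := if (a = 0 ∧ b = 3) ∨ (a = 3 ∧ b = 0) then 1 else 0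
def T2 (a b : Fin 6) : ℤ := if (a = 0 ∧ b = 4) ∨ (a = 4 ∧ b = 0) then 1 else 0
def T3 (a b : Fin 6) : ℤ := if (a = 2 ∧ b = 5) ∨ (a = 5 ∧ b = 2) then 1 else 0
def cX (a b : Fin 6) : ℤ := (if a = 0 then 1 else 0) + (if b = 0 then 1 else 0)
def cY (a b : Fin 6) : ℤ := (if a = 2 then 1 else 0) + (if b = 2 then 1 else 0)
def cV (a b : Fin 6) : ℤ := (if a = 5 then 1 else 0) + (if b = 5 then 1 else 0)
def inS (a : Fin 6) : Bool := a = 0 || a = 2 || a = 5
def inA (a : Fin 6) : Bool := a = 0 || a = 1 || a = 4
def cutS (a b : Fin 6) : ℤ := if inS a = inS b then 0 else 1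
def crossV (a b : Fin 6) : ℤ := if (a = 5 ∧ inA b = true) ∨ (b = 5 ∧ inA a = true) then 1 else 0
def innB (a b : Fin 6) : ℤ := if (a = 5 ∧ inA b = false) ∨ (b = 5 ∧ inA a = false) then 1 else 0
def okp (a b : Fin 6) : Bool :=
  !(inA a && inA b && a != 4 && b != 4) && !(!inA a && !inA b && a != 5 && b != 5) &&
    !(a = 4 && b = 4) && !(a = 5 && b = 5)

theorem id1 : ∀ a b : Fin 6, okp a b = true →
    2 * (T1 a b + T2 a b - T3 a b) = cutS a b - cV a b + cX a b - cY a b := by decide
theorem id2 : ∀ a b : Fin 6, okp a b = true →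
    cX a b - cY a b - crossV a b ≤ T1 a b + T2 a b - T3 a b := by decide
theorem id3 : ∀ a b : Fin 6, okp a b = true → crossV a b + innB a b = cV a b := by decide
theorem id4 : ∀ a b : Fin 6, okp a b = true → T3 a b ≤ innB a b := by decide
theorem id5 : ∀ a b : Fin 6, 0 ≤ T1 a b ∧ 0 ≤ T2 a b := by decide
theorem okp_of : ∀ a b : Fin 6, (inA a = true → inA b = true → a = 4 ∨ b = 4) →
    (¬ inA a = true → ¬ inA b = true → a = 5 ∨ b = 5) → ¬ (a = 4 ∧ b = 4) → ¬ (a = 5 ∧ b = 5) →
    okp a b = true := by decide

end core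


/-- classes of vertices: `0` = `X`, `1` = rest of `A`, `2` = `Y`, `3` = rest of the complement,
`4` = `u`, `5` = `v` -/
def cl (A X Y : Finset V) (u v : V) (x : V) : Fin 6 :=
  if x = u then 4 else if x = v then 5 else if x ∈ X then 0 else if x ∈ Y then 2 else
    if x ∈ A then 1 else 3

omit [Fintype V] in
theorem cl_spec (A X Y : Finset V) (u v : V) (hu : u ∈ A) (hv : v ∉ A)
    (hX : X ⊆ A.erase u) (hY : ∀ y ∈ Y, y ∉ A ∧ y ≠ v) (x : V) :
    (cl A X Y u v x = 0 ↔ x ∈ X) ∧ (cl A X Y u v x = 2 ↔ x ∈ Y) ∧
    (cl A X Y u v x = 4 ↔ x = u) ∧ (cl A X Y u v x = 5 ↔ x = v) ∧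
    (cl A X Y u v x = 3 ↔ (x ∉ A ∧ x ≠ v ∧ x ∉ Y)) ∧
    (inA (cl A X Y u v x) = true ↔ x ∈ A) := by
  have huX : u ∉ X := fun h => (Finset.mem_erase.mp (hX h)).1 rfl
  have hvX : v ∉ X := fun h => hv (Finset.mem_erase.mp (hX h)).2
  have huY : u ∉ Y := fun h => (hY u h).1 hu
  have hvY : v ∉ Y := fun h => (hY v h).2 rfl
  have huv : u ≠ v := fun h => hv (h ▸ hu)
  unfold cl
  by_cases h1 : x = u
  · subst h1
    simp [huX, huY, huv, hu, inA]
  · by_cases h2 : x = v
    · subst h2
      simp [hvX, hvY, hv, inA, h1]
    · by_cases h3 : x ∈ X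
      · have h4 : x ∈ A := (Finset.mem_erase.mp (hX h3)).2
        have h5 : x ∉ Y := fun h => (hY x h).1 h4
        simp [h1, h2, h3, h4, h5, inA]
      · by_cases h4 : x ∈ Y
        · have h5 := (hY x h4).1
          simp [h1, h2, h3, h4, h5, inA]
        · by_cases h5 : x ∈ A
          · simp [h1, h2, h3, h4, h5, inA]
          · simp [h1, h2, h3, h4, h5, inA]

theorem arith (i r x y t1 t2 t3 cv cutn DX DY : ℤ) (hir : i ≤ r) (hi0 : 0 ≤ i) (s13 : 0 ≤ t1)
    (s14 : 0 ≤ t2) (s12 : t3 ≤ i) (s9 : cv + i = r) (s11 : r * x - r * y - cv ≤ t1 + t2 - t3)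
    (s10 : 2 * (t1 + t2 - t3) = cutn - r + r * x - r * y) (d1 : DX + t2 = x * i)
    (d2 : DY + t3 = y * i) (hodd : x = y → r ≤ cutn) : DX ≤ t1 + DY := by
  rcases lt_trichotomy x y with h | h | h
  · have h1 : 0 ≤ i * (y - x - 1) := mul_nonneg hi0 (by linarith)
    nlinarith
  · have h1 := hodd h
    subst h
    linarith
  · have h1 : 0 ≤ (r - i) * (x - y - 1) := mul_nonneg (by linarith) (by linarith)
    nlinarith

set_option maxHeartbeats 4000000 in
theorem core (G : MGraph V E) (r : ℕ) (hreg : G.Regular r)
    (hcut : ∀ S : Finset V, Odd S.card → r ≤ (G.cut S).card)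
    (A : Finset V) (u v : V) (hu : u ∈ A) (hv : v ∉ A) (hcard : A.card = Aᶜ.card)
    (hA : ∀ e, G.fst e ∈ A → G.snd e ∈ A → G.Inc u e)
    (hB : ∀ e, G.fst e ∉ A → G.snd e ∉ A → G.Inc v e) : G.Class1 r := by
  classical
  have huv : u ≠ v := fun h => hv (h ▸ hu)
  set inner : Finset E := univ.filter (fun e => (G.fst e ∈ A ↔ G.snd e ∈ A)) with hinner
  set m : V → ℕ := fun x => (inner.filter (fun e => G.Inc x e)).card with hm
  have hdegsum : ∀ D : Finset V, ∑ e : E, ((if G.fst e ∈ D then (1:ℤ) else 0) +
      (if G.snd e ∈ D then 1 else 0)) = r * D.card := by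
    intro D
    have h := incsum G univ D
    rw [Finset.sum_congr rfl (fun x _ => hreg x)] at h
    rw [Finset.sum_const, smul_eq_mul] at h
    have h' := congrArg (fun n : ℕ => (n : ℤ)) h
    push_cast at h'
    rw [← h']
    ring
  have hmsum : ∀ x : V, (m x : ℤ) = ∑ e : E,
      (if (G.fst e ∈ A ↔ G.snd e ∈ A) ∧ G.Inc x e then (1:ℤ) else 0) := by
    intro x
    rw [hm, hinner]
    simp only [Finset.filter_filter]
    rw [Finset.card_filter]
    push_cast
    rfl
  obtain ⟨i, hi⟩ : ∃ i, i = m u := ⟨_, rfl⟩
  have hmv : m v = i := by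
    rw [hi]
    have h1 := hdegsum A
    have h2 := hdegsum Aᶜ
    have h3 := hmsum u
    have h4 := hmsum v
    have h5 : ∑ e : E, ((if G.fst e ∈ A then (1:ℤ) else 0) + (if G.snd e ∈ A then 1 else 0)) -
        ∑ e : E, ((if G.fst e ∈ Aᶜ then (1:ℤ) else 0) + (if G.snd e ∈ Aᶜ then 1 else 0)) =
        2 * (∑ e : E, (if (G.fst e ∈ A ↔ G.snd e ∈ A) ∧ G.Inc u e then (1:ℤ) else 0)) -
        2 * (∑ e : E, (if (G.fst e ∈ A ↔ G.snd e ∈ A) ∧ G.Inc v e then (1:ℤ) else 0)) := by
      rw [Finset.mul_sum, Finset.mul_sum, ← Finset.sum_sub_distrib, ← Finset.sum_sub_distrib]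
      apply Finset.sum_congr rfl
      intro e _
      by_cases ha : G.fst e ∈ A <;> by_cases hb : G.snd e ∈ A
      · have h6 := hA e ha hb
        have h7 : ¬ G.Inc v e := by
          rintro (h | h)
          · exact hv (h ▸ ha)
          · exact hv (h ▸ hb)
        simp [ha, hb, h6, h7]
      · simp [ha, hb]
      · simp [ha, hb]
      · have h6 := hB e ha hb
        have h7 : ¬ G.Inc u e := by
          rintro (h | h)
          · exact ha (h ▸ hu)
          · exact hb (h ▸ hu)
        simp [ha, hb, h6, h7]
    rw [h1, h2, ← h3, ← h4, hcard] at h5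
    have : (m v : ℤ) = m u := by linarith
    exact_mod_cast this
  have hir : i ≤ r := by
    rw [hi, ← hreg u]
    exact Finset.card_le_card (Finset.filter_subset_filter _ (Finset.subset_univ _))
  have hmA : ∀ x ∈ A, m x ≤ i := by
    intro x hx
    rw [hi]
    apply Finset.card_le_card
    intro e he
    rw [Finset.mem_filter] at he ⊢
    refine ⟨he.1, ?_⟩
    rw [hinner, Finset.mem_filter] at he
    rcases he.2 with h | h
    · exact hA e (h ▸ hx) (he.1.2.mp (h ▸ hx))
    · exact hA e (he.1.2.mpr (h ▸ hx)) (h ▸ hx)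
  have hmB : ∀ x, x ∉ A → m x ≤ i := by
    intro x hx
    rw [← hmv]
    apply Finset.card_le_card
    intro e he
    rw [Finset.mem_filter] at he ⊢
    refine ⟨he.1, ?_⟩
    rw [hinner, Finset.mem_filter] at he
    rcases he.2 with h | h
    · exact hB e (h ▸ hx) (fun h' => (h ▸ hx) (he.1.2.mpr h'))
    · exact hB e (fun h' => (h ▸ hx) (he.1.2.mp h')) (h ▸ hx)
  set F0 : Finset E := univ.filter (fun e => ¬ (G.fst e ∈ A ↔ G.snd e ∈ A) ∧ ¬ G.Inc u e ∧
    ¬ G.Inc v e) with hF0
  have hF0c : ∀ e ∈ F0, ¬ (G.fst e ∈ A ↔ G.snd e ∈ A) := fun e he => (Finset.mem_filter.mp he).2.1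
  have hsumA : ∑ x ∈ A.erase u, m x = i := by
    rw [hm, hi, hm]
    simp only
    rw [incsum, Finset.card_filter]
    apply Finset.sum_congr rfl
    intro e he
    rw [hinner, Finset.mem_filter] at he
    have hl := G.loopless e
    by_cases ha : G.fst e ∈ A
    · have hb := he.2.mp ha
      have h6 := hA e ha hb
      simp only [Finset.mem_erase, ha, hb, h6, and_true, if_true]
      rcases h6 with h | h
      · have : G.snd e ≠ u := fun h' => hl (h.trans h'.symm)
        simp [h, this]
      · have : G.fst e ≠ u := fun h' => hl (h'.trans h.symm)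
        simp [h, this]
    · have hb : G.snd e ∉ A := fun h => ha (he.2.mpr h)
      have h7 : ¬ G.Inc u e := by
        rintro (h | h)
        · exact ha (h ▸ hu)
        · exact hb (h ▸ hu)
      simp [ha, hb, h7]
  have hsumB : ∑ x ∈ Aᶜ.erase v, m x = i := by
    rw [hm, ← hmv, hm]
    simp only
    rw [incsum, Finset.card_filter]
    apply Finset.sum_congr rfl
    intro e he
    rw [hinner, Finset.mem_filter] at he
    have hl := G.loopless e
    by_cases ha : G.fst e ∈ A
    · have hb := he.2.mp ha
      have h7 : ¬ G.Inc v e := by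
        rintro (h | h)
        · exact hv (h ▸ ha)
        · exact hv (h ▸ hb)
      simp [ha, hb, h7]
    · have hb : G.snd e ∉ A := fun h => ha (he.2.mpr h)
      have h6 := hB e ha hb
      simp only [Finset.mem_erase, Finset.mem_compl, ha, hb, h6, not_false_eq_true, and_true,
        if_true]
      rcases h6 with h | h
      · have : G.snd e ≠ v := fun h' => hl (h.trans h'.symm)
        simp [h, this]
      · have : G.fst e ≠ v := fun h' => hl (h'.trans h.symm)
        simp [h, this]
  have hdem : ∀ D : Finset V, (∀ x ∈ D, m x ≤ i) →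
      ∑ x ∈ D, (i - m x) + ∑ x ∈ D, m x = D.card * i := by
    intro D hD
    rw [← Finset.sum_add_distrib, Finset.sum_congr rfl (g := fun _ => i)]
    · simp
    · intro x hx
      have := hD x hx
      omega
  have hvc : v ∈ Aᶜ := Finset.mem_compl.mpr hv
  obtain ⟨F', hF'F, hF'p, hF'q⟩ := factor (pe G A) (qe G A) (A.erase u) (Aᶜ.erase v)
    (fun x => i - m x) (fun x => i - m x) F0
    (by
      intro e he
      rw [Finset.mem_erase]
      have h1 := pe_mem G A e (hF0c e he)
      refine ⟨?_, h1⟩
      intro h
      exact (Finset.mem_filter.mp he).2.2.1 ((pe_eq G A e (hF0c e he) u hu).mp h))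
    (by
      intro e he
      rw [Finset.mem_erase]
      have h1 := qe_mem G A e (hF0c e he)
      refine ⟨?_, Finset.mem_compl.mpr h1⟩
      intro h
      exact (Finset.mem_filter.mp he).2.2.2 ((qe_eq G A e (hF0c e he) v hv).mp h))
    (by
      have h1 := hdem (A.erase u) (fun x hx => hmA x (Finset.mem_erase.mp hx).2)
      have h2 := hdem (Aᶜ.erase v) (fun x hx =>
        hmB x (Finset.mem_compl.mp (Finset.mem_erase.mp hx).2))
      rw [hsumA] at h1
      rw [hsumB] at h2
      have h3 : (A.erase u).card = (Aᶜ.erase v).card := by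
        rw [Finset.card_erase_of_mem hu, Finset.card_erase_of_mem hvc, hcard]
      rw [h3] at h1
      omega)
    (by
      intro X hX Y hY
      have hXA : ∀ x ∈ X, x ∈ A := fun x hx => (Finset.mem_erase.mp (hX hx)).2
      have hYA : ∀ y ∈ Y, y ∉ A ∧ y ≠ v := fun y hy =>
        ⟨Finset.mem_compl.mp (Finset.mem_erase.mp (hY hy)).2, (Finset.mem_erase.mp (hY hy)).1⟩
      have hc := cl_spec A X Y u v hu hv hX hYA
      set κ := cl A X Y u v with hκ
      have hok : ∀ e, okp (κ (G.fst e)) (κ (G.snd e)) = true := by
        intro e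
        obtain ⟨_, _, a4, a5, _, aA⟩ := hc (G.fst e)
        obtain ⟨_, _, b4, b5, _, bA⟩ := hc (G.snd e)
        have hl := G.loopless e
        have g1 := hA e
        have g2 := hB e
        rw [← aA, ← bA] at g1 g2
        unfold Inc at g1 g2
        rw [← a4, ← b4] at g1
        rw [← a5, ← b5] at g2
        have g3 : ¬ (κ (G.fst e) = 4 ∧ κ (G.snd e) = 4) := by
          rw [a4, b4]; rintro ⟨h1, h2⟩; exact hl (h1.trans h2.symm)
        have g4 : ¬ (κ (G.fst e) = 5 ∧ κ (G.snd e) = 5) := by
          rw [a5, b5]; rintro ⟨h1, h2⟩; exact hl (h1.trans h2.symm)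
        exact okp_of _ _ g1 g2 g3 g4
      have s1 : ((F0.filter (fun e => pe G A e ∈ X ∧ qe G A e ∉ Y)).card : ℤ) =
          ∑ e : E, T1 (κ (G.fst e)) (κ (G.snd e)) := by
        rw [hF0, Finset.filter_filter, Finset.card_filter]
        push_cast
        apply Finset.sum_congr rfl
        intro e _
        obtain ⟨a0, a2, a4, a5, a3, aA⟩ := hc (G.fst e)
        obtain ⟨b0, b2, b4, b5, b3, bA⟩ := hc (G.snd e)
        unfold T1
        simp only [a0, a3, b0, b3]
        by_cases ha : G.fst e ∈ A <;> by_cases hb : G.snd e ∈ A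
        · simp [ha, hb]
        · have e1 : G.fst e ≠ v := fun h => hv (h ▸ ha)
          have e2 : G.snd e ≠ u := fun h => hb (h ▸ hu)
          by_cases hx : G.fst e ∈ X
          · have e3 : G.fst e ≠ u := (Finset.mem_erase.mp (hX hx)).1
            simp [ha, hb, pe, qe, Inc, e1, e2, e3, hx]
          · simp [ha, hb, pe, qe, Inc, hx]
        · have e1 : G.snd e ≠ v := fun h => hv (h ▸ hb)
          have e2 : G.fst e ≠ u := fun h => ha (h ▸ hu)
          by_cases hx : G.snd e ∈ X
          · have e3 : G.snd e ≠ u := (Finset.mem_erase.mp (hX hx)).1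
            simp [ha, hb, pe, qe, Inc, e1, e2, e3, hx]
          · simp [ha, hb, pe, qe, Inc, hx]
        · have e1 : G.fst e ∉ X := fun h => ha (hXA _ h)
          have e2 : G.snd e ∉ X := fun h => hb (hXA _ h)
          simp [ha, hb, e1, e2]
      have s2 : ((∑ x ∈ X, m x : ℕ) : ℤ) = ∑ e : E, T2 (κ (G.fst e)) (κ (G.snd e)) := by
        rw [hm]
        simp only
        rw [incsum, hinner, Finset.sum_filter]
        push_cast
        apply Finset.sum_congr rfl
        intro e _
        obtain ⟨a0, a2, a4, a5, a3, aA⟩ := hc (G.fst e)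
        obtain ⟨b0, b2, b4, b5, b3, bA⟩ := hc (G.snd e)
        have hl := G.loopless e
        unfold T2
        simp only [a0, a4, b0, b4]
        have huX : u ∉ X := fun h => (Finset.mem_erase.mp (hX h)).1 rfl
        by_cases ha : G.fst e ∈ A <;> by_cases hb : G.snd e ∈ A
        · rcases hA e ha hb with h | h
          · have : G.snd e ≠ u := fun h' => hl (h.trans h'.symm)
            by_cases hx : G.snd e ∈ X
            · simp [hb, h, hu, huX, this, hx]
            · simp [hb, h, hu, huX, this, hx]
          · have : G.fst e ≠ u := fun h' => hl (h'.trans h.symm)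
            by_cases hx : G.fst e ∈ X
            · simp [ha, h, hu, huX, this, hx]
            · simp [ha, h, hu, huX, this, hx]
        · have e2 : G.snd e ≠ u := fun h => hb (h ▸ hu)
          have e3 : G.snd e ∉ X := fun h => hb (hXA _ h)
          simp [ha, hb, e2, e3]
        · have e2 : G.fst e ≠ u := fun h => ha (h ▸ hu)
          have e3 : G.fst e ∉ X := fun h => ha (hXA _ h)
          simp [ha, hb, e2, e3]
        · have e1 : G.fst e ∉ X := fun h => ha (hXA _ h)
          have e2 : G.snd e ∉ X := fun h => hb (hXA _ h)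
          simp [ha, hb, e1, e2]
      have s3 : ((∑ x ∈ Y, m x : ℕ) : ℤ) = ∑ e : E, T3 (κ (G.fst e)) (κ (G.snd e)) := by
        rw [hm]
        simp only
        rw [incsum, hinner, Finset.sum_filter]
        push_cast
        apply Finset.sum_congr rfl
        intro e _
        obtain ⟨a0, a2, a4, a5, a3, aA⟩ := hc (G.fst e)
        obtain ⟨b0, b2, b4, b5, b3, bA⟩ := hc (G.snd e)
        have hl := G.loopless e
        unfold T3
        simp only [a2, a5, b2, b5]
        have hvY : v ∉ Y := fun h => (hYA v h).2 rfl
        by_cases ha : G.fst e ∈ A <;> by_cases hb : G.snd e ∈ A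
        · have e1 : G.fst e ∉ Y := fun h => (hYA _ h).1 ha
          have e2 : G.snd e ∉ Y := fun h => (hYA _ h).1 hb
          simp [ha, hb, e1, e2]
        · have e1 : G.fst e ∉ Y := fun h => (hYA _ h).1 ha
          have e2 : G.fst e ≠ v := fun h => hv (h ▸ ha)
          simp [ha, hb, e1, e2]
        · have e1 : G.snd e ∉ Y := fun h => (hYA _ h).1 hb
          have e2 : G.snd e ≠ v := fun h => hv (h ▸ hb)
          simp [ha, hb, e1, e2]
        · rcases hB e ha hb with h | h
          · have : G.snd e ≠ v := fun h' => hl (h.trans h'.symm)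
            by_cases hx : G.snd e ∈ Y
            · simp [hb, h, hv, hvY, this, hx]
            · simp [hb, h, hv, hvY, this, hx]
          · have : G.fst e ≠ v := fun h' => hl (h'.trans h.symm)
            by_cases hx : G.fst e ∈ Y
            · simp [ha, h, hv, hvY, this, hx]
            · simp [ha, h, hv, hvY, this, hx]
      have s4 : ∑ e : E, cX (κ (G.fst e)) (κ (G.snd e)) = r * X.card := by
        rw [← hdegsum X]
        apply Finset.sum_congr rfl
        intro e _
        unfold cX
        simp only [(hc (G.fst e)).1, (hc (G.snd e)).1]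
      have s5 : ∑ e : E, cY (κ (G.fst e)) (κ (G.snd e)) = r * Y.card := by
        rw [← hdegsum Y]
        apply Finset.sum_congr rfl
        intro e _
        unfold cY
        simp only [(hc (G.fst e)).2.1, (hc (G.snd e)).2.1]
      have s6 : ∑ e : E, cV (κ (G.fst e)) (κ (G.snd e)) = r := by
        have := hdegsum {v}
        rw [Finset.card_singleton] at this
        rw [Nat.cast_one, mul_one] at this
        rw [← this]
        apply Finset.sum_congr rfl
        intro e _
        unfold cV
        simp only [(hc (G.fst e)).2.2.2.1, (hc (G.snd e)).2.2.2.1, Finset.mem_singleton]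
      have s7 : ∑ e : E, innB (κ (G.fst e)) (κ (G.snd e)) = i := by
        rw [← hmv, hmsum v]
        apply Finset.sum_congr rfl
        intro e _
        obtain ⟨a0, a2, a4, a5, a3, aA⟩ := hc (G.fst e)
        obtain ⟨b0, b2, b4, b5, b3, bA⟩ := hc (G.snd e)
        unfold innB Inc
        have aA' : inA (κ (G.fst e)) = false ↔ G.fst e ∉ A := by rw [← aA]; simp
        have bA' : inA (κ (G.snd e)) = false ↔ G.snd e ∉ A := by rw [← bA]; simp
        simp only [a5, b5, aA', bA']
        by_cases ha : G.fst e ∈ A <;> by_cases hb : G.snd e ∈ A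
        · have e1 : G.fst e ≠ v := fun h => hv (h ▸ ha)
          have e2 : G.snd e ≠ v := fun h => hv (h ▸ hb)
          simp [ha, hb, e1, e2]
        · have e1 : G.fst e ≠ v := fun h => hv (h ▸ ha)
          simp [ha, hb, e1]
        · have e1 : G.snd e ≠ v := fun h => hv (h ▸ hb)
          simp [ha, hb, e1]
        · simp [ha, hb]
      have s8 : ∑ e : E, cutS (κ (G.fst e)) (κ (G.snd e)) = (G.cut (insert v (X ∪ Y))).card := by
        unfold MGraph.cut
        rw [Finset.card_filter]
        push_cast
        apply Finset.sum_congr rfl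
        intro e _
        have hin : ∀ x, inS (κ x) = true ↔ x ∈ insert v (X ∪ Y) := by
          intro x
          obtain ⟨a0, a2, a4, a5, a3, aA⟩ := hc x
          unfold inS
          rw [Finset.mem_insert, Finset.mem_union, ← a5, ← a0, ← a2]
          simp only [Bool.or_eq_true, decide_eq_true_eq]
          tauto
        unfold cutS
        simp only [← hin]
        by_cases h1 : inS (κ (G.fst e)) = true <;> by_cases h2 : inS (κ (G.snd e)) = true <;>
          simp [h1, h2]
      have s9 : ∑ e : E, crossV (κ (G.fst e)) (κ (G.snd e)) +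
          ∑ e : E, innB (κ (G.fst e)) (κ (G.snd e)) = ∑ e : E, cV (κ (G.fst e)) (κ (G.snd e)) := by
        rw [← Finset.sum_add_distrib]
        exact Finset.sum_congr rfl (fun e _ => id3 _ _ (hok e))
      have s10 : 2 * (∑ e : E, T1 (κ (G.fst e)) (κ (G.snd e)) +
          ∑ e : E, T2 (κ (G.fst e)) (κ (G.snd e)) - ∑ e : E, T3 (κ (G.fst e)) (κ (G.snd e))) =
          ∑ e : E, cutS (κ (G.fst e)) (κ (G.snd e)) - ∑ e : E, cV (κ (G.fst e)) (κ (G.snd e)) +
          ∑ e : E, cX (κ (G.fst e)) (κ (G.snd e)) - ∑ e : E, cY (κ (G.fst e)) (κ (G.snd e)) := by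
        rw [← Finset.sum_add_distrib, ← Finset.sum_sub_distrib, Finset.mul_sum,
          ← Finset.sum_sub_distrib, ← Finset.sum_add_distrib, ← Finset.sum_sub_distrib]
        exact Finset.sum_congr rfl (fun e _ => id1 _ _ (hok e))
      have s11 : ∑ e : E, cX (κ (G.fst e)) (κ (G.snd e)) -
          ∑ e : E, cY (κ (G.fst e)) (κ (G.snd e)) - ∑ e : E, crossV (κ (G.fst e)) (κ (G.snd e)) ≤
          ∑ e : E, T1 (κ (G.fst e)) (κ (G.snd e)) +
          ∑ e : E, T2 (κ (G.fst e)) (κ (G.snd e)) - ∑ e : E, T3 (κ (G.fst e)) (κ (G.snd e)) := by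
        rw [← Finset.sum_add_distrib, ← Finset.sum_sub_distrib, ← Finset.sum_sub_distrib,
          ← Finset.sum_sub_distrib]
        exact Finset.sum_le_sum (fun e _ => id2 _ _ (hok e))
      have s12 : ∑ e : E, T3 (κ (G.fst e)) (κ (G.snd e)) ≤
          ∑ e : E, innB (κ (G.fst e)) (κ (G.snd e)) :=
        Finset.sum_le_sum (fun e _ => id4 _ _ (hok e))
      have s13 : 0 ≤ ∑ e : E, T1 (κ (G.fst e)) (κ (G.snd e)) :=
        Finset.sum_nonneg (fun e _ => (id5 _ _).1)
      have s14 : 0 ≤ ∑ e : E, T2 (κ (G.fst e)) (κ (G.snd e)) :=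
        Finset.sum_nonneg (fun e _ => (id5 _ _).2)
      have d1 := hdem X (fun x hx => hmA x (hXA x hx))
      have d2 := hdem Y (fun y hy => hmB y (hYA y hy).1)
      have d1' := congrArg (fun n : ℕ => (n : ℤ)) d1
      have d2' := congrArg (fun n : ℕ => (n : ℤ)) d2
      simp only [Nat.cast_add, Nat.cast_mul] at d1' d2'
      have goal' : ((∑ x ∈ X, (i - m x) : ℕ) : ℤ) ≤
          ((F0.filter (fun e => pe G A e ∈ X ∧ qe G A e ∉ Y)).card : ℤ) +
          ((∑ y ∈ Y, (i - m y) : ℕ) : ℤ) := by
        rw [s2] at d1'
        rw [s3] at d2'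
        rw [s1]
        rw [s4, s5, s6, s8] at s10
        rw [s4, s5] at s11
        rw [s6, s7] at s9
        rw [s7] at s12
        have hSodd : X.card = Y.card → Odd (insert v (X ∪ Y)).card := by
          intro heq
          have hvn : v ∉ X ∪ Y := by
            rw [Finset.mem_union]
            rintro (h | h)
            · exact hv (hXA v h)
            · exact (hYA v h).2 rfl
          have hdis : Disjoint X Y := by
            rw [Finset.disjoint_left]
            intro x hx hy
            exact (hYA x hy).1 (hXA x hx)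
          rw [Finset.card_insert_of_notMem hvn, Finset.card_union_of_disjoint hdis, heq]
          exact ⟨Y.card, by ring⟩
        exact arith i r X.card Y.card _ _ _ _ _ _ _ (by exact_mod_cast hir) (by positivity)
          s13 s14 s12 s9 s11 s10 d1' d2' (by
            intro h
            exact_mod_cast hcut _ (hSodd (by exact_mod_cast h)))
      have := goal'
      exact_mod_cast this)
  -- assemble
  have hdisj : Disjoint F' inner := by
    rw [Finset.disjoint_left]
    intro e he he'
    exact hF0c e (hF'F he) (Finset.mem_filter.mp he').2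
  apply class1_of_parts G r i hir (F' ∪ inner) A (insert v (A.erase u)) hreg
  · intro e he
    rw [Finset.mem_union] at he
    have key : ∀ x, x ∈ insert v (A.erase u) ↔ (x = v ∨ (x ≠ u ∧ x ∈ A)) := by
      intro x; rw [Finset.mem_insert, Finset.mem_erase]
    rw [key, key]
    rcases he with he | he
    · have h1 := (Finset.mem_filter.mp (hF'F he)).2
      obtain ⟨h1, h2, h3⟩ := h1
      unfold Inc at h2 h3
      push Not at h2 h3
      have := h2.1; have := h2.2; have := h3.1; have := h3.2
      tauto
    · have h1 := (Finset.mem_filter.mp he).2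
      have hl := G.loopless e
      by_cases ha : G.fst e ∈ A
      · have hb := h1.mp ha
        have e1 : G.fst e ≠ v := fun h => hv (h ▸ ha)
        have e2 : G.snd e ≠ v := fun h => hv (h ▸ hb)
        rcases hA e ha hb with h | h
        · have : G.snd e ≠ u := fun h' => hl (h.trans h'.symm)
          tauto
        · have : G.fst e ≠ u := fun h' => hl (h'.trans h.symm)
          tauto
      · have hb : G.snd e ∉ A := fun h => ha (h1.mpr h)
        rcases hB e ha hb with h | h
        · have : G.snd e ≠ v := fun h' => hl (h.trans h'.symm)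
          tauto
        · have : G.fst e ≠ v := fun h' => hl (h'.trans h.symm)
          tauto
  · intro e he
    rw [Finset.mem_union] at he
    push Not at he
    intro h
    exact he.2 (Finset.mem_filter.mpr ⟨Finset.mem_univ _, h⟩)
  · intro x
    rw [Finset.filter_union, Finset.card_union_of_disjoint
      (Finset.disjoint_of_subset_left (Finset.filter_subset _ _)
        (Finset.disjoint_of_subset_right (Finset.filter_subset _ _) hdisj))]
    by_cases hxA : x ∈ A
    · by_cases hxu : x = u
      · subst hxu
        have : (F'.filter (fun e => G.Inc x e)) = ∅ := by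
          apply Finset.filter_eq_empty_iff.mpr
          intro e he
          exact (Finset.mem_filter.mp (hF'F he)).2.2.1
        rw [this, Finset.card_empty, hi]
        simp [hm]
      · have h1 := hF'p x (Finset.mem_erase.mpr ⟨hxu, hxA⟩)
        have h2 : (F'.filter (fun e => pe G A e = x)) = (F'.filter (fun e => G.Inc x e)) := by
          apply Finset.filter_congr
          intro e he
          exact pe_eq G A e (hF0c e (hF'F he)) x hxA
        rw [h2] at h1
        rw [h1]
        have := hmA x hxA
        simp only [hm] at this ⊢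
        omega
    · by_cases hxv : x = v
      · subst hxv
        have : (F'.filter (fun e => G.Inc x e)) = ∅ := by
          apply Finset.filter_eq_empty_iff.mpr
          intro e he
          exact (Finset.mem_filter.mp (hF'F he)).2.2.2
        rw [this, Finset.card_empty, ← hmv]
        simp [hm]
      · have h1 := hF'q x (Finset.mem_erase.mpr ⟨hxv, Finset.mem_compl.mpr hxA⟩)
        have h2 : (F'.filter (fun e => qe G A e = x)) = (F'.filter (fun e => G.Inc x e)) := by
          apply Finset.filter_congr
          intro e he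
          exact qe_eq G A e (hF0c e (hF'F he)) x hxA
        rw [h2] at h1
        rw [h1]
        have := hmB x hxA
        simp only [hm] at this ⊢
        omega

/-- deleting the vertices `u` and `v` leaves a bipartite graph -/
def MGraph.BipartiteAway {V E : Type} (G : MGraph V E) (u v : V) : Prop :=
  ∃ f : V → Bool, ∀ e, ¬ G.Inc u e → ¬ G.Inc v e → f (G.fst e) ≠ f (G.snd e)

theorem class1_bip (G : MGraph V E) (r : ℕ) (hreg : G.Regular r) (A : Finset V)
    (h : ∀ e, ¬ (G.fst e ∈ A ↔ G.snd e ∈ A)) : G.Class1 r :=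
  class1_of_parts G r 0 (Nat.zero_le _) ∅ A A hreg (by simp) (fun e _ => h e) (by simp)

theorem main (G : MGraph V E) (r : ℕ) (hreg : G.Regular r)
    (hcut : ∀ S : Finset V, Odd S.card → r ≤ (G.cut S).card) (u v : V) (huv : u ≠ v)
    (h : G.BipartiteAway u v) : G.Class1 r := by
  classical
  rcases Nat.eq_zero_or_pos r with hr | hr
  · subst hr
    have hE : ∀ e : E, False := by
      intro e
      have h1 := hreg (G.fst e)
      rw [Finset.card_eq_zero] at h1
      have h2 : e ∈ univ.filter (fun e' => G.Inc (G.fst e) e') :=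
        Finset.mem_filter.mpr ⟨Finset.mem_univ _, Or.inl rfl⟩
      rw [h1] at h2
      simp at h2
    exact ⟨fun e => (hE e).elim, fun e => (hE e).elim⟩
  obtain ⟨f, hf⟩ := h
  have heven : ¬ Odd (Finset.univ : Finset V).card := by
    intro ho
    have h1 := hcut univ ho
    have h2 : G.cut univ = ∅ := by
      unfold MGraph.cut
      apply Finset.filter_eq_empty_iff.mpr
      intro e _
      simp
    rw [h2, Finset.card_empty] at h1
    omega
  set A0 : Finset V := univ.filter (fun x => x ≠ u ∧ x ≠ v ∧ f x = true) with hA0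
  set B0 : Finset V := univ.filter (fun x => x ≠ u ∧ x ≠ v ∧ f x = false) with hB0
  have memA : ∀ x, x ∈ A0 ↔ (x ≠ u ∧ x ≠ v ∧ f x = true) := fun x => by simp [hA0]
  have memB : ∀ x, x ∈ B0 ↔ (x ≠ u ∧ x ≠ v ∧ f x = false) := fun x => by simp [hB0]
  have hAB : Disjoint A0 B0 := by
    rw [Finset.disjoint_left]
    intro x hx hx'
    rw [memA] at hx
    rw [memB] at hx'
    rw [hx.2.2] at hx'
    exact absurd hx'.2.2 (by simp)
  have hcover : ({u, v} : Finset V) ∪ (A0 ∪ B0) = univ := by
    ext x
    simp only [Finset.mem_union, Finset.mem_insert, Finset.mem_singleton, memA, memB,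
      Finset.mem_univ, iff_true]
    by_cases h1 : x = u
    · simp [h1]
    · by_cases h2 : x = v
      · simp [h2]
      · cases h3 : f x <;> simp [h1, h2]
  have hcardV : A0.card + B0.card + 2 = (univ : Finset V).card := by
    rw [← hcover, Finset.card_union_of_disjoint, Finset.card_pair huv,
      Finset.card_union_of_disjoint hAB]
    · ring
    · rw [Finset.disjoint_left]
      intro x hx hx'
      rw [Finset.mem_insert, Finset.mem_singleton] at hx
      rw [Finset.mem_union, memA, memB] at hx'
      rcases hx with hx | hx <;> rcases hx' with hx' | hx'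
      · exact hx'.1 hx
      · exact hx'.1 hx
      · exact hx'.2.1 hx
      · exact hx'.2.1 hx
  have hdegsum : ∀ D : Finset V, ∑ e : E, ((if G.fst e ∈ D then (1:ℤ) else 0) +
      (if G.snd e ∈ D then 1 else 0)) = r * D.card := by
    intro D
    have h := incsum G univ D
    rw [Finset.sum_congr rfl (fun x _ => hreg x)] at h
    rw [Finset.sum_const, smul_eq_mul] at h
    have h' := congrArg (fun n : ℕ => (n : ℤ)) h
    push_cast at h'
    rw [← h']
    ring
  have hA := hdegsum A0
  have hB := hdegsum B0
  have hUV := hdegsum {u, v}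
  rw [Finset.card_pair huv] at hUV
  -- pointwise bounds
  have pt : ∀ e : E,
      ((((if G.fst e ∈ A0 then (1:ℤ) else 0) + (if G.snd e ∈ A0 then 1 else 0)) -
        ((if G.fst e ∈ B0 then (1:ℤ) else 0) + (if G.snd e ∈ B0 then 1 else 0)) ≤
        ((if G.fst e ∈ ({u, v} : Finset V) then (1:ℤ) else 0) +
          (if G.snd e ∈ ({u, v} : Finset V) then 1 else 0))) ∧
      (((if G.fst e ∈ B0 then (1:ℤ) else 0) + (if G.snd e ∈ B0 then 1 else 0)) -
        ((if G.fst e ∈ A0 then (1:ℤ) else 0) + (if G.snd e ∈ A0 then 1 else 0)) ≤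
        ((if G.fst e ∈ ({u, v} : Finset V) then (1:ℤ) else 0) +
          (if G.snd e ∈ ({u, v} : Finset V) then 1 else 0)))) ∧
      ((((if G.fst e ∈ A0 then (1:ℤ) else 0) + (if G.snd e ∈ A0 then 1 else 0)) -
        ((if G.fst e ∈ B0 then (1:ℤ) else 0) + (if G.snd e ∈ B0 then 1 else 0)) =
        ((if G.fst e ∈ ({u, v} : Finset V) then (1:ℤ) else 0) +
          (if G.snd e ∈ ({u, v} : Finset V) then 1 else 0))) →
        ¬ (G.fst e ∈ A0 ↔ G.snd e ∈ A0)) ∧
      ((((if G.fst e ∈ B0 then (1:ℤ) else 0) + (if G.snd e ∈ B0 then 1 else 0)) -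
        ((if G.fst e ∈ A0 then (1:ℤ) else 0) + (if G.snd e ∈ A0 then 1 else 0)) =
        ((if G.fst e ∈ ({u, v} : Finset V) then (1:ℤ) else 0) +
          (if G.snd e ∈ ({u, v} : Finset V) then 1 else 0))) →
        ¬ (G.fst e ∈ B0 ↔ G.snd e ∈ B0)) := by
    intro e
    have cls : ∀ x, (x ∈ ({u, v} : Finset V) ∧ x ∉ A0 ∧ x ∉ B0) ∨
        (x ∉ ({u, v} : Finset V) ∧ x ∈ A0 ∧ x ∉ B0) ∨
        (x ∉ ({u, v} : Finset V) ∧ x ∉ A0 ∧ x ∈ B0) := by
      intro x
      rw [memA, memB, Finset.mem_insert, Finset.mem_singleton]
      by_cases h1 : x = u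
      · simp [h1]
      · by_cases h2 : x = v
        · simp [h2]
        · cases h3 : f x <;> simp [h1, h2]
    have h1 : G.fst e ∉ ({u, v} : Finset V) → G.snd e ∉ ({u, v} : Finset V) →
        ¬ (G.fst e ∈ A0 ∧ G.snd e ∈ A0) ∧ ¬ (G.fst e ∈ B0 ∧ G.snd e ∈ B0) := by
      intro g1 g2
      rw [Finset.mem_insert, Finset.mem_singleton] at g1 g2
      push Not at g1 g2
      have := hf e (by rintro (h | h); exacts [g1.1 h, g2.1 h])
        (by rintro (h | h); exacts [g1.2 h, g2.2 h])
      rw [memA, memA, memB, memB]
      constructor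
      · rintro ⟨a, b⟩; exact this (a.2.2.trans b.2.2.symm)
      · rintro ⟨a, b⟩; exact this (a.2.2.trans b.2.2.symm)
    rcases cls (G.fst e) with ⟨a1, a2, a3⟩ | ⟨a1, a2, a3⟩ | ⟨a1, a2, a3⟩ <;>
      rcases cls (G.snd e) with ⟨b1, b2, b3⟩ | ⟨b1, b2, b3⟩ | ⟨b1, b2, b3⟩
    · simp only [a1, a2, a3, b1, b2, b3, if_true, if_false]; norm_num
    · simp only [a1, a2, a3, b1, b2, b3, if_true, if_false]; norm_num
    · simp only [a1, a2, a3, b1, b2, b3, if_true, if_false]; norm_num
    · simp only [a1, a2, a3, b1, b2, b3, if_true, if_false]; norm_num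
    · exact absurd ⟨a2, b2⟩ (h1 a1 b1).1
    · simp only [a1, a2, a3, b1, b2, b3, if_true, if_false]; norm_num
    · simp only [a1, a2, a3, b1, b2, b3, if_true, if_false]; norm_num
    · simp only [a1, a2, a3, b1, b2, b3, if_true, if_false]; norm_num
    · exact absurd ⟨a3, b3⟩ (h1 a1 b1).2
  have hAB' : (A0.card : ℤ) - B0.card ≤ 2 := by
    have := Finset.sum_le_sum (fun e (_ : e ∈ (univ : Finset E)) => (pt e).1.1)
    rw [Finset.sum_sub_distrib, hA, hB, hUV] at this
    push_cast at this
    have hr' : (0 : ℤ) < r := by exact_mod_cast hr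
    nlinarith
  have hBA' : (B0.card : ℤ) - A0.card ≤ 2 := by
    have := Finset.sum_le_sum (fun e (_ : e ∈ (univ : Finset E)) => (pt e).1.2)
    rw [Finset.sum_sub_distrib, hA, hB, hUV] at this
    push_cast at this
    have hr' : (0 : ℤ) < r := by exact_mod_cast hr
    nlinarith
  rw [Nat.not_odd_iff_even] at heven
  rw [← hcardV] at heven
  obtain ⟨k, hk⟩ := heven
  have hcases : A0.card = B0.card ∨ A0.card = B0.card + 2 ∨ B0.card = A0.card + 2 := by omega
  rcases hcases with hc | hc | hc
  · -- balanced
    apply core G r hreg hcut (insert u A0) u v (Finset.mem_insert_self _ _)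
    · rw [Finset.mem_insert]
      rintro (h | h)
      · exact huv h.symm
      · exact (memA v).mp h |>.2.1 rfl
    · have huA : u ∉ A0 := fun h => ((memA u).mp h).1 rfl
      rw [Finset.card_compl, Finset.card_insert_of_notMem huA]
      rw [Finset.card_univ] at hcardV
      omega
    · intro e ha hb
      rw [Finset.mem_insert] at ha hb
      by_contra hne
      unfold Inc at hne
      push Not at hne
      have ha' := (memA _).mp (ha.resolve_left hne.1)
      have hb' := (memA _).mp (hb.resolve_left hne.2)
      exact hf e (by rintro (h | h); exacts [ha'.1 h, hb'.1 h])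
        (by rintro (h | h); exacts [ha'.2.1 h, hb'.2.1 h]) (ha'.2.2.trans hb'.2.2.symm)
    · intro e ha hb
      rw [Finset.mem_insert] at ha hb
      push Not at ha hb
      by_contra hne
      unfold Inc at hne
      push Not at hne
      have fa : f (G.fst e) = false := by
        by_contra h
        exact ha.2 ((memA _).mpr ⟨ha.1, hne.1, by simpa using h⟩)
      have fb : f (G.snd e) = false := by
        by_contra h
        exact hb.2 ((memA _).mpr ⟨hb.1, hne.2, by simpa using h⟩)
      exact hf e (by rintro (h | h); exacts [ha.1 h, hb.1 h])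
        (by rintro (h | h); exacts [hne.1 h, hne.2 h]) (fa.trans fb.symm)
  · apply class1_bip G r hreg A0
    intro e
    apply (pt e).2.1
    have hs : ∑ e : E, ((((if G.fst e ∈ A0 then (1:ℤ) else 0) + (if G.snd e ∈ A0 then 1 else 0)) -
        ((if G.fst e ∈ B0 then (1:ℤ) else 0) + (if G.snd e ∈ B0 then 1 else 0)))) =
        ∑ e : E, ((if G.fst e ∈ ({u, v} : Finset V) then (1:ℤ) else 0) +
          (if G.snd e ∈ ({u, v} : Finset V) then 1 else 0)) := by
      rw [Finset.sum_sub_distrib, hA, hB, hUV, hc]
      push_cast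
      ring
    exact (Finset.sum_eq_sum_iff_of_le (fun e _ => (pt e).1.1)).mp hs e (Finset.mem_univ _)
  · apply class1_bip G r hreg B0
    intro e
    apply (pt e).2.2
    have hs : ∑ e : E, ((((if G.fst e ∈ B0 then (1:ℤ) else 0) + (if G.snd e ∈ B0 then 1 else 0)) -
        ((if G.fst e ∈ A0 then (1:ℤ) else 0) + (if G.snd e ∈ A0 then 1 else 0)))) =
        ∑ e : E, ((if G.fst e ∈ ({u, v} : Finset V) then (1:ℤ) else 0) +
          (if G.snd e ∈ ({u, v} : Finset V) then 1 else 0)) := by
      rw [Finset.sum_sub_distrib, hA, hB, hUV, hc]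
      push_cast
      ring
    exact (Finset.sum_eq_sum_iff_of_le (fun e _ => (pt e).1.2)).mp hs e (Finset.mem_univ _)


/-- A graph (parallel edges allowed, no loops) is `k`-edge-connected: after deleting any set of
fewer than `k` edges any two vertices are joined by a path. -/
def MGraph.EdgeConnected {V E : Type} [DecidableEq E] (G : MGraph V E) (k : ℕ) : Prop :=
  ∀ D : Finset E, D.card < k → ∀ x y : V,
    Relation.ReflTransGen (fun a b => ∃ e, e ∉ D ∧ G.Inc a e ∧ G.Inc b e) x y

theorem cut_of_edgeConnected (G : MGraph V E) (k : ℕ) (h : G.EdgeConnected k) (S : Finset V)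
    (hne : S.Nonempty) (hu : S ≠ univ) : k ≤ (G.cut S).card := by
  by_contra hlt
  push Not at hlt
  obtain ⟨x, hx⟩ := hne
  obtain ⟨y, hy⟩ : ∃ y, y ∉ S := by
    by_contra hall
    push Not at hall
    exact hu (Finset.eq_univ_iff_forall.mpr hall)
  have hp := h (G.cut S) hlt x y
  have key : ∀ z, Relation.ReflTransGen
      (fun a b => ∃ e, e ∉ G.cut S ∧ G.Inc a e ∧ G.Inc b e) x z → z ∈ S := by
    intro z hz
    induction hz with
    | refl => exact hx
    | tail _ hab ih =>
      obtain ⟨e, he, ha, hb⟩ := hab
      have he' : G.fst e ∈ S ↔ G.snd e ∈ S := by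
        by_contra hc
        exact he (Finset.mem_filter.mpr ⟨Finset.mem_univ _, hc⟩)
      rcases ha with ha | ha <;> rcases hb with hb | hb
      · rw [← hb, ha]; exact ih
      · rw [← hb, ← he', ha]; exact ih
      · rw [← hb, he', ha]; exact ih
      · rw [← hb, ha]; exact ih
  exact hy (key y hp)

theorem result {V E : Type} [Fintype V] [DecidableEq V] [Fintype E] [DecidableEq E]
    (G : MGraph V E) (r : ℕ) (hreg : G.Regular r)
    (hcut : ∀ S : Finset V, Odd S.card → r ≤ (G.cut S).card) (u v : V) (huv : u ≠ v)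
    (h : G.BipartiteAway u v) : G.Class1 r :=
  main G r hreg hcut u v huv h

/-- The case of the problem: `5`-regular, `5`-edge-connected. -/
theorem five (G : MGraph V E) (hreg : G.Regular 5) (hconn : G.EdgeConnected 5) (u v : V)
    (huv : u ≠ v) (h : G.BipartiteAway u v) : G.Class1 5 := by
  apply result G 5 hreg _ u v huv h
  intro S hS
  apply cut_of_edgeConnected G 5 hconn S
  · exact Finset.card_pos.mp hS.pos
  · rintro rfl
    have h1 := incsum G univ univ
    rw [Finset.sum_congr rfl (fun x _ => hreg x)] at h1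
    simp only [Finset.sum_const, smul_eq_mul, Finset.mem_univ, if_true] at h1
    obtain ⟨k, hk⟩ := hS
    rw [hk] at h1
    omega

end Pool.Agent.Results.MP_78ca69_co.BipartiteAfterTwo
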