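import Pool.Agent.Lib.MP_78ca69_co.F5.Fin

/-!
# Q1 is a question on Fulkerson covers of cyclically 5-edge-connected cubic graphs

Main result (`result`): a 5-regular 5-edge-connected graph of Class 2 exists if and only if there are
a cyclically 5-edge-connected cubic graph `S` and a perfect matching `M` of `S` which is in no
Fulkerson cover of `S` (six perfect matchings covering every edge exactly twice); and then there are
such `S`, `M` for which all cycles of `S - M` have length 5.

Proof idea. From `S` and `M` we get the graph `2 S - M` (all edges outside `M` are doubled). For the
other direction take a smallest 5-regular 5-edge-connected graph `G` of Class 2. Its edges have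
multiplicity at most two and it has no non-trivial separation of order two (`RG3.min_sep`). Replace
every vertex by a 5-cycle, joined to the five edges at the vertex in a cyclic order in which parallel
edges are not consecutive. This gives the cubic graph `S`, the matching `M` is formed by the edges
of `G`; a perfect matching of `S` uses an odd number of the five edges at each of the 5-cycles, so
a Fulkerson cover with `M` gives a 5-edge-colouring of `G`.
-/

namespace Pool.Agent.Results.MP_78ca69_co.FulkersonCovers

open F5

/-- The following are equivalent: a 5-regular 5-edge-connected (multi)graph of Class 2 exists; some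
cyclically 5-edge-connected cubic graph has a perfect matching which is in no Fulkerson cover; the
same, and all components of the complement of the perfect matching are 5-cycles. -/
theorem result : List.TFAE [
    ∃ (V E : Type) (ends : E → Sym2 V), Finite V ∧ Finite E ∧ RegularConnected ends 5 ∧
      ¬ Colourable ends 5,
    ∃ (V : Type) (S M : SimpleGraph V), Finite V ∧ Cubic S ∧ CyclicallyFive S ∧
      PerfectMatching S M ∧ ¬ InFulkersonCover S M,
    ∃ (V : Type) (S M : SimpleGraph V), Finite V ∧ Cubic S ∧ CyclicallyFive S ∧
      PerfectMatching S M ∧ (∀ c : (S \ M).ConnectedComponent, c.supp.ncard = 5) ∧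
      ¬ InFulkersonCover S M] := by
  tfae_have 1 → 3 := one_to_three
  tfae_have 3 → 2 := fun ⟨V, S, M, h1, h2, h3, h4, _, h6⟩ => ⟨V, S, M, h1, h2, h3, h4, h6⟩
  tfae_have 2 → 1 := two_to_one
  tfae_finish

end Pool.Agent.Results.MP_78ca69_co.FulkersonCovers
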