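import Pool.Agent.Lib.MP_78ca69_co.R3.Min

/-!
# Separations of order at most 3 in a smallest Class 2 graph

Main result (`result`): let `r ≥ 3` be odd (for example `r = 5`) and let `G` be an `r`-regular
`r`-edge-connected loopless multigraph of Class 2 with the smallest possible number of vertices. Then
whenever `V(G)` is the disjoint union of `A`, `B`, `C` with at most three vertices in `B` and no edge
between `A` and `C`, one of `A`, `C` has at most one vertex. So a smallest graph as in the question
is `3`-connected up to single vertices, and its vertex cuts with three vertices only cut off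
single vertices.

Proof idea. We may suppose that `B` has three vertices, `A` an even and `C` an odd number (at
least `2` and `3`). The colours of the two sides at `B` are determined up to a permutation, by
parity. `A` can be replaced by edges inside `B`, and `C` by a new vertex `z` and edges inside
`B ∪ {z}`, so that both new graphs are `r`-regular and `r`-edge-connected (for `C` this needs a
choice, which exists by posimodularity of cuts); they are smaller, so of Class 1, and the colourings
can be glued.
-/

namespace Pool.Agent.Results.MP_78ca69_co.SmallSeparations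

/-- The multigraph with vertex set `V`, edge set `E` and ends `ends` is loopless, `r`-regular and
`r`-edge-connected (every non-empty proper set of vertices is left by at least `r` edges). -/
def RegularConnected {V E : Type} (ends : E → Sym2 V) (r : ℕ) : Prop :=
  (∀ e, ¬ (ends e).IsDiag) ∧ (∀ v : V, {e | v ∈ ends e}.ncard = r) ∧
    ∀ X : Set V, X.Nonempty → X ≠ Set.univ →
      r ≤ {e | ∃ u ∈ X, ∃ v ∉ X, ends e = s(u, v)}.ncard

/-- The edges can be coloured with `r` colours so that different edges with a common end get
different colours. -/
def Colourable {V E : Type} (ends : E → Sym2 V) (r : ℕ) : Prop :=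
  ∃ c : E → Fin r, ∀ e f, e ≠ f → (∃ v, v ∈ ends e ∧ v ∈ ends f) → c e ≠ c f

/-- **Main theorem.** -/
theorem result (r : ℕ) (hr : 3 ≤ r) (hodd : Odd r) (V E : Type) [Finite V] [Finite E]
    (ends : E → Sym2 V) (hG : RegularConnected ends r) (hG2 : ¬ Colourable ends r)
    (hmin : ∀ (V' E' : Type) [Finite V'] [Finite E'] (ends' : E' → Sym2 V'),
      RegularConnected ends' r → ¬ Colourable ends' r → Nat.card V ≤ Nat.card V')
    (A B C : Set V) (hun : A ∪ B ∪ C = Set.univ) (hAB : Disjoint A B) (hAC : Disjoint A C)
    (hBC : Disjoint B C) (hB : B.ncard ≤ 3)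
    (hno : ∀ e, ∀ x ∈ A, ∀ y ∈ C, ends e ≠ s(x, y)) : A.ncard ≤ 1 ∨ C.ncard ≤ 1 := by
  classical
  haveI := Fintype.ofFinite V
  haveI := Fintype.ofFinite E
  by_contra hcon
  push Not at hcon
  obtain ⟨hA, hC⟩ := hcon
  apply hG2
  have hreg : RG3.Reg V E ends r := by
    refine ⟨hG.1, ?_, ?_⟩
    · intro v
      rw [← hG.2.1 v, Set.ncard_eq_toFinset_card']
      congr 1
      ext e
      simp
    · intro X hX0 hX1
      have := hG.2.2 (X : Set V) (Finset.coe_nonempty.2 hX0)
        (fun h => hX1 (by rw [← Finset.coe_univ] at h; exact Finset.coe_injective h))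
      rw [Set.ncard_eq_toFinset_card'] at this
      refine this.trans (le_of_eq ?_)
      congr 1
      ext e
      simp
  refine RG3.min_sep ends r hr hodd hreg ?_ A.toFinset B.toFinset C.toFinset ?_ ?_ ?_ ?_ ?_ ?_ ?_ ?_
  · intro V' E' _ _ _ _ ends' hlt hreg'
    by_contra hcol
    have h1 := hmin V' E' ends' ?_ hcol
    · rw [Nat.card_eq_fintype_card, Nat.card_eq_fintype_card] at h1
      omega
    · refine ⟨hreg'.loop, ?_, ?_⟩
      · intro v
        rw [← hreg'.deg v, Set.ncard_eq_toFinset_card']
        congr 1
        ext e
        simp
      · intro X hX0 hX1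
        have := hreg'.cut X.toFinset (by simpa using hX0) (by simpa using hX1)
        rw [Set.ncard_eq_toFinset_card']
        refine this.trans (le_of_eq ?_)
        congr 1
        ext e
        simp
  · rw [← Set.toFinset_union, ← Set.toFinset_union]
    simp [hun]
  · exact Set.disjoint_toFinset.2 hAB
  · exact Set.disjoint_toFinset.2 hAC
  · exact Set.disjoint_toFinset.2 hBC
  · rw [← Set.ncard_eq_toFinset_card']
    exact hB
  · rw [← Set.ncard_eq_toFinset_card']
    exact hA
  · rw [← Set.ncard_eq_toFinset_card']
    exact hC
  · intro e x hx y hy
    exact hno e x (by simpa using hx) y (by simpa using hy)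

end Pool.Agent.Results.MP_78ca69_co.SmallSeparations
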