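import Pool.Agent.Lib.MP_78ca69_co.R3.Edge1
import Pool.Agent.Lib.MP_78ca69_co.R3.Col

/-!
# Regular multigraphs of tree-width at most 3 are of Class 1

Main result (`result`): an `r`-regular loopless multigraph of tree-width at most `3` in which every set
of an odd number of vertices is left by at least `r` edges is `r`-edge-colourable. For `r = 5` the
hypothesis on odd sets holds for all `5`-regular `5`-edge-connected graphs (`five`). The bound `3` is
best possible in the general statement: the Petersen graph (`r = 3`) has tree-width `4`.

Proof idea. At a separation of order `3` with sides `L` (an even number of vertices) and `R` (an odd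
number) the colours of the two sides at the three vertices of the separator are determined up to
a permutation, by parity. `L` can be replaced by edges between the three vertices, and `R` by one new
vertex and edges between the three vertices, so that all odd cuts still have at least `r` edges (for
`R` this needs a choice, which exists by submodularity of cuts). A graph of tree-width at most `3` with
at least `10` vertices has such a separation, with both new graphs smaller and of tree-width at
most `3`. For at most `8` vertices one contracts tight cuts and removes perfect matchings.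
-/

namespace Pool.Agent.Results.MP_78ca69_co.TreewidthThree

/-- The multigraph with vertex set `V`, edge set `E` and ends `ends` has tree-width at most `k`: it has
a tree-decomposition (a tree `T`, a finite set `bag i` of vertices for every node `i` of `T`, such that for
every vertex `v` the nodes `i` with `v ∈ bag i` induce a non-empty connected subgraph of `T`, and every
edge has both ends in some bag) in which all bags have at most `k + 1` vertices. -/
def TreewidthLE {V E : Type} (ends : E → Sym2 V) (k : ℕ) : Prop :=
  ∃ (ι : Type) (T : SimpleGraph ι) (bag : ι → Finset V), T.IsTree ∧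
    (∀ i, (bag i).card ≤ k + 1) ∧ (∀ v, (T.induce {i | v ∈ bag i}).Connected) ∧
    ∀ e, ∃ i, ∀ v ∈ ends e, v ∈ bag i

/-- **Main theorem.** -/
theorem result (V E : Type) [Finite V] [Finite E] (ends : E → Sym2 V) (r : ℕ)
    (hloop : ∀ e, ¬ (ends e).IsDiag)
    (hreg : ∀ v : V, {e | v ∈ ends e}.ncard = r)
    (hcut : ∀ X : Finset V, Odd X.card → r ≤ {e | ∃ u ∈ X, ∃ v ∉ X, ends e = s(u, v)}.ncard)
    (htw : TreewidthLE ends 3) :
    ∃ c : E → Fin r, ∀ e f, e ≠ f → (∃ v, v ∈ ends e ∧ v ∈ ends f) → c e ≠ c f := by
  classical
  haveI := Fintype.ofFinite V
  haveI := Fintype.ofFinite E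
  have hdeg : ∀ v, (Finset.univ.filter fun e => v ∈ ends e).card = r := by
    intro v
    rw [← hreg v, Set.ncard_eq_toFinset_card']
    congr 1
    ext e
    simp
  have hcut' : ∀ X : Finset V, Odd X.card →
      r ≤ (Finset.univ.filter fun e => ∃ u ∈ X, ∃ v ∉ X, ends e = s(u, v)).card := by
    intro X hX
    have := hcut X hX
    rw [Set.ncard_eq_toFinset_card'] at this
    refine this.trans (le_of_eq ?_)
    congr 1
    ext e
    simp
  obtain ⟨M, hM, hone⟩ := RG3.main_edges ends hloop r hdeg hcut' htw
  exact RG3.col_of_pm ends r M hM hone

/-- The case of the problem: every `5`-regular `5`-edge-connected graph (every non-empty proper set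
of vertices is left by at least `5` edges) of tree-width at most `3` is of Class 1. -/
theorem five (V E : Type) [Finite V] [Finite E] (ends : E → Sym2 V)
    (hloop : ∀ e, ¬ (ends e).IsDiag)
    (hreg : ∀ v : V, {e | v ∈ ends e}.ncard = 5)
    (hconn : ∀ X : Set V, X.Nonempty → X ≠ Set.univ →
      5 ≤ {e | ∃ u ∈ X, ∃ v ∉ X, ends e = s(u, v)}.ncard)
    (htw : TreewidthLE ends 3) :
    ∃ c : E → Fin 5, ∀ e f, e ≠ f → (∃ v, v ∈ ends e ∧ v ∈ ends f) → c e ≠ c f := by
  classical
  refine result V E ends 5 hloop hreg ?_ htw
  intro X hX
  have hne : (X : Set V).Nonempty := Finset.coe_nonempty.2 (Finset.card_pos.1 hX.pos)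
  by_cases hall : (X : Set V) = Set.univ
  · exfalso
    haveI := Fintype.ofFinite V
    haveI := Fintype.ofFinite E
    have hX' : X = Finset.univ := by
      ext v
      have : v ∈ (X : Set V) := by rw [hall]; trivial
      simpa using this
    have hdeg : ∀ v, (Finset.univ.filter fun e => v ∈ ends e).card = 5 := by
      intro v
      rw [← hreg v, Set.ncard_eq_toFinset_card']
      congr 1
      ext e
      simp
    have symm : ∀ x y, RG3.mult ends x y = RG3.mult ends y x := RG3.mult_symm ends
    have irr : ∀ x, RG3.mult ends x x = 0 := by
      intro x
      unfold RG3.mult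
      rw [Finset.card_eq_zero, Finset.filter_eq_empty_iff]
      intro e _ he
      exact hloop e (by rw [he]; simp)
    have h1 := RG3.even_inner symm irr (Finset.univ : Finset V)
    have h2 : ∑ x : V, ∑ y, RG3.mult ends x y = Fintype.card V * 5 := by
      rw [Finset.sum_congr rfl fun x _ => by rw [RG3.mult_deg ends hloop x, hdeg x]]
      simp
    rw [h2, Nat.even_mul] at h1
    rw [hX', Finset.card_univ] at hX
    rcases h1 with h1 | h1
    · exact (Nat.not_even_iff_odd.2 hX) h1
    · exact absurd h1 (by decide)
  · exact hconn X hne hall

end Pool.Agent.Results.MP_78ca69_co.TreewidthThree
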